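import Pool.Agent.Helper97.Copolymer.Main

/-!
The copolymer model at a selective interface: `log μ(λ,h) ∼ log f(λ,h)` as `h ↑ h_c(λ)`.

All objects are defined in `Pool/Agent/Helper97/Copolymer/Defs.lean`.
-/

open MeasureTheory Filter Topology

namespace Pool.Agent.Results.MP_0ce44f_pr.LogEquivalence

open Pool.Agent.Helper97.Copolymer

/-- For every gap law `K` with `n^(1+α) K(n) → c_K > 0`, every charge law `ν` with mean `0`,
variance `1` and finite exponential moments, and every `λ > 0`: the limits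
`f(h) = lim N⁻¹ 𝔼 log Z_{N,ω}` and
`μ(h) = - lim N⁻¹ log 𝔼 [(1 + exp (-2 λ ∑_{n ≤ N} (ω_n + h))) / Z_{N,ω}]` exist for every `h`,
there is `h_c ∈ (0,∞)` such that for `h ≥ 0` one has `f(h) > 0` exactly when `h < h_c`, and
`log μ(h) / log f(h) → 1` as `h ↑ h_c`. -/
theorem result (K : PMF ℕ) (α cK : ℝ) (hα : 0 < α) (hcK : 0 < cK) (hK0 : K 0 = 0)
    (hK : Tendsto (fun n : ℕ => (n : ℝ) ^ (1 + α) * (K n).toReal) atTop (𝓝 cK))
    (ν : Measure ℝ) [IsProbabilityMeasure ν]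
    (hmean : ∫ x, x ∂ν = 0) (hvar : ∫ x, x ^ 2 ∂ν = 1)
    (hM : ∀ t : ℝ, Integrable (fun x => Real.exp (t * x)) ν) (lam : ℝ) (hlam : 0 < lam) :
    ∃ f μ : ℝ → ℝ,
      (∀ h : ℝ, Tendsto (fun N : ℕ => (N : ℝ)⁻¹ * logMean K ν lam h N) atTop (𝓝 (f h))) ∧
      (∀ h : ℝ, Tendsto (fun N : ℕ => -((N : ℝ)⁻¹ * Real.log (invMean K ν lam h N))) atTop
        (𝓝 (μ h))) ∧
      ∃ hc : ℝ, 0 < hc ∧ (∀ h : ℝ, 0 ≤ h → (0 < f h ↔ h < hc)) ∧
        Tendsto (fun h => Real.log (μ h) / Real.log (f h)) (𝓝[<] hc) (𝓝 1) :=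
  main_theorem' K α cK hcK hK0 hK ν hmean hvar hM lam hlam

end Pool.Agent.Results.MP_0ce44f_pr.LogEquivalence
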